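import Pool.Agent.W662.CB.Stmts

/-!
Subtask CB-A8a: analytic elements by Gaussian smoothing.
-/

set_option autoImplicit false

open MeasureTheory Filter Topology Complex
open scoped InnerProductSpace ENNReal

namespace Pool.Agent.W883.CB

open Pool.Agent.W662.CB

noncomputable section

/-- the Gaussian kernel -/
def Kc (c : ℝ) (z : ℂ) (t : ℝ) : ℂ :=
  (Real.sqrt (c / Real.pi) : ℂ) * cexp (-(c : ℂ) * ((t : ℂ) - z) ^ 2)

lemma norm_Kc (c : ℝ) (z : ℂ) (t : ℝ) : ‖Kc c z t‖ =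
    Real.sqrt (c / Real.pi) * (Real.exp (c * z.im ^ 2) * Real.exp (-c * (t - z.re) ^ 2)) := by
  unfold Kc
  rw [norm_mul, Complex.norm_exp, Complex.norm_real, Real.norm_of_nonneg (Real.sqrt_nonneg _),
    ← Real.exp_add]
  congr 2
  simp [pow_two, Complex.mul_re, Complex.mul_im]
  ring

lemma Kc_cont (c : ℝ) (z : ℂ) : Continuous (Kc c z) := by
  unfold Kc; fun_prop

lemma conj_Kc (c : ℝ) (z : ℂ) (t : ℝ) :
    (starRingEnd ℂ) (Kc c ((starRingEnd ℂ) z) t) = Kc c z t := by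
  unfold Kc
  rw [map_mul, Complex.conj_ofReal, ← Complex.exp_conj]
  congr 2
  simp

lemma Kc_add (c : ℝ) (s t : ℝ) : Kc c (t : ℂ) (s + t) = Kc c 0 s := by
  unfold Kc
  congr 3
  push_cast; ring

lemma Kc_integral (c : ℝ) (hc : 0 < c) (z : ℂ) :
    Integrable (fun t => ‖Kc c z t‖) ∧ ∫ t, ‖Kc c z t‖ = Real.exp (c * z.im ^ 2) := by
  have h1 : Integrable (fun t : ℝ => Real.exp (-c * (t - z.re) ^ 2)) :=
    (integrable_exp_neg_mul_sq hc).comp_sub_right z.re
  have h2 : ∫ t : ℝ, Real.exp (-c * (t - z.re) ^ 2) = Real.sqrt (Real.pi / c) := by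
    rw [integral_sub_right_eq_self (fun t : ℝ => Real.exp (-c * t ^ 2)), integral_gaussian]
  simp only [norm_Kc]
  refine ⟨(h1.const_mul _).const_mul _, ?_⟩
  rw [integral_const_mul, integral_const_mul, h2]
  have h3 : Real.sqrt (c / Real.pi) * Real.sqrt (Real.pi / c) = 1 := by
    rw [← Real.sqrt_mul (by positivity)]
    have : c / Real.pi * (Real.pi / c) = 1 := by
      have := Real.pi_pos
      field_simp
    rw [this, Real.sqrt_one]
  calc Real.sqrt (c / Real.pi) * (Real.exp (c * z.im ^ 2) * Real.sqrt (Real.pi / c))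
      = Real.exp (c * z.im ^ 2) * (Real.sqrt (c / Real.pi) * Real.sqrt (Real.pi / c)) := by ring
    _ = _ := by rw [h3, mul_one]

variable {H : Type} [NormedAddCommGroup H] [InnerProductSpace ℂ H] [CompleteSpace H]

/-- the smoothed vector -/
def Iv (c : ℝ) (z : ℂ) (w : ℝ → H) : H := ∫ t, Kc c z t • w t

lemma int_Kc (c : ℝ) (hc : 0 < c) (z : ℂ) (w : ℝ → H) (hw : Continuous w) (B : ℝ)
    (hB : ∀ t, ‖w t‖ ≤ B) : Integrable (fun t => Kc c z t • w t) := by
  refine Integrable.mono' (((Kc_integral c hc z).1).mul_const B)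
    (((Kc_cont c z).smul hw).aestronglyMeasurable) (Eventually.of_forall fun t => ?_)
  rw [norm_smul]
  exact mul_le_mul_of_nonneg_left (hB t) (norm_nonneg _)

lemma norm_Iv (c : ℝ) (hc : 0 < c) (z : ℂ) (w : ℝ → H) (B : ℝ)
    (hB : ∀ t, ‖w t‖ ≤ B) : ‖Iv c z w‖ ≤ Real.exp (c * z.im ^ 2) * B := by
  unfold Iv
  refine (norm_integral_le_of_norm_le (((Kc_integral c hc z).1).mul_const B)
    (Eventually.of_forall fun t => ?_)).trans ?_
  · rw [norm_smul]
    exact mul_le_mul_of_nonneg_left (hB t) (norm_nonneg _)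
  · rw [integral_mul_const, (Kc_integral c hc z).2]

lemma Kc_deriv (c : ℝ) (z : ℂ) (t : ℝ) :
    HasDerivAt (fun z => Kc c z t) (2 * c * (t - z) * Kc c z t) z := by
  unfold Kc
  have h1 : HasDerivAt (fun z : ℂ => -(c : ℂ) * ((t : ℂ) - z) ^ 2)
      (-(c : ℂ) * (2 * ((t : ℂ) - z) * (-1))) z := by
    have h2 : HasDerivAt (fun z : ℂ => (t : ℂ) - z) (-1) z := by
      simpa using (hasDerivAt_id z).const_sub (t : ℂ)
    have h3 := (h2.fun_pow 2).const_mul (-(c : ℂ))
    refine h3.congr_deriv ?_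
    simp
  have h4 := (h1.cexp).const_mul (Real.sqrt (c / Real.pi) : ℂ)
  refine h4.congr_deriv ?_
  ring

lemma norm_Kc_le (c : ℝ) (hc : 0 < c) (R : ℝ) (z : ℂ) (hz : ‖z‖ ≤ R) (t : ℝ) : ‖Kc c z t‖ ≤
    Real.sqrt (c / Real.pi) * (Real.exp (c * R ^ 2) * Real.exp (-(c / 2) * t ^ 2)) := by
  rw [norm_Kc, ← Real.exp_add, ← Real.exp_add]
  apply mul_le_mul_of_nonneg_left _ (Real.sqrt_nonneg _)
  apply Real.exp_le_exp.2
  have h1 : z.re ^ 2 + z.im ^ 2 ≤ R ^ 2 := by
    have h2 : ‖z‖ ^ 2 ≤ R ^ 2 := pow_le_pow_left₀ (norm_nonneg _) hz 2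
    rw [← Complex.normSq_eq_norm_sq, Complex.normSq_apply] at h2
    nlinarith
  have h3 : 0 ≤ (t - 2 * z.re) ^ 2 := sq_nonneg _
  have h4 : c * z.im ^ 2 + -c * (t - z.re) ^ 2 =
      c * (z.re ^ 2 + z.im ^ 2) - c / 2 * t ^ 2 - c / 2 * (t - 2 * z.re) ^ 2 := by ring
  rw [h4]
  have h5 := mul_le_mul_of_nonneg_left h1 hc.le
  have h6 := mul_nonneg (half_pos hc).le h3
  linarith

lemma diff_Iv (c : ℝ) (hc : 0 < c) (w : ℝ → H) (hw : Continuous w) (B : ℝ)
    (hB : ∀ t, ‖w t‖ ≤ B) : Differentiable ℂ (fun z => Iv c z w) := by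
  intro z₀
  unfold Iv
  have hB0 : 0 ≤ B := (norm_nonneg _).trans (hB 0)
  set R := ‖z₀‖ + 1 with hR
  have hR0 : 0 ≤ R := by positivity
  have hin1 : Integrable (fun t : ℝ => Real.exp (-(c / 2) * t ^ 2)) :=
    integrable_exp_neg_mul_sq (half_pos hc)
  have hin2 : Integrable (fun t : ℝ => ‖t * Real.exp (-(c / 2) * t ^ 2)‖) :=
    (integrable_mul_exp_neg_mul_sq (half_pos hc)).norm
  have hbi : Integrable (fun t : ℝ => (2 * c * Real.sqrt (c / Real.pi) * Real.exp (c * R ^ 2) * B) *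
      (‖t * Real.exp (-(c / 2) * t ^ 2)‖ + R * Real.exp (-(c / 2) * t ^ 2))) :=
    (hin2.add (hin1.const_mul R)).const_mul _
  refine (hasDerivAt_integral_of_dominated_loc_of_deriv_le (𝕜 := ℂ) (μ := volume)
    (s := Metric.ball z₀ 1) (F := fun z t => Kc c z t • w t)
    (F' := fun z t => (2 * c * (t - z) * Kc c z t) • w t)
    (bound := fun t : ℝ => (2 * c * Real.sqrt (c / Real.pi) * Real.exp (c * R ^ 2) * B) *
      (‖t * Real.exp (-(c / 2) * t ^ 2)‖ + R * Real.exp (-(c / 2) * t ^ 2)))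
    (Metric.ball_mem_nhds z₀ one_pos)
    (Eventually.of_forall fun z => (((Kc_cont c z).smul hw).aestronglyMeasurable))
    (int_Kc c hc z₀ w hw B hB) ?_ ?_ hbi ?_).2.differentiableAt
  · have : Continuous (fun t : ℝ => (2 * c * (t - z₀) * Kc c z₀ t : ℂ)) := by
      have := Kc_cont c z₀
      fun_prop
    exact (this.smul hw).aestronglyMeasurable
  · refine Eventually.of_forall fun t z hz => ?_
    have hzR : ‖z‖ ≤ R := by
      have h1 : dist z z₀ < 1 := hz
      rw [dist_eq_norm] at h1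
      have h2 : ‖z‖ ≤ ‖z - z₀‖ + ‖z₀‖ := by
        have := norm_add_le (z - z₀) z₀
        rwa [sub_add_cancel] at this
      rw [hR]; linarith
    rw [norm_smul, norm_mul]
    have h1 : ‖(2 * c * (t - z) : ℂ)‖ ≤ 2 * c * (|t| + R) := by
      rw [norm_mul, norm_mul, Complex.norm_real, Real.norm_of_nonneg hc.le]
      have h2 : ‖(t : ℂ) - z‖ ≤ |t| + R := by
        refine (norm_sub_le _ _).trans ?_
        rw [Complex.norm_real, Real.norm_eq_abs]
        linarith
      have h3 : ‖(2 : ℂ)‖ = 2 := by simp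
      rw [h3]
      exact mul_le_mul_of_nonneg_left h2 (by positivity)
    have h2 := norm_Kc_le c hc R z hzR t
    have h3 := hB t
    calc ‖(2 * c * (t - z) : ℂ)‖ * ‖Kc c z t‖ * ‖w t‖
        ≤ (2 * c * (|t| + R)) * (Real.sqrt (c / Real.pi) *
          (Real.exp (c * R ^ 2) * Real.exp (-(c / 2) * t ^ 2))) * B := by gcongr
      _ = _ := by
          rw [norm_mul, Real.norm_of_nonneg (Real.exp_pos _).le, Real.norm_eq_abs]
          ring
  · refine Eventually.of_forall fun t z _ => ?_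
    exact (Kc_deriv c z t).smul_const (w t)

lemma tendsto_Iv (w : ℝ → H) (hw : Continuous w) (B : ℝ) (hB : ∀ t, ‖w t‖ ≤ B) :
    Tendsto (fun n : ℕ => Iv ((n : ℝ) + 1) 0 w) atTop (𝓝 (w 0)) := by
  have key : ∀ n : ℕ, Iv ((n : ℝ) + 1) 0 w =
      ∫ s : ℝ, Kc 1 0 s • w ((Real.sqrt ((n : ℝ) + 1))⁻¹ * s) := by
    intro n
    have hc : (0 : ℝ) < (n : ℝ) + 1 := by positivity
    set c := (n : ℝ) + 1 with hcdef
    have hr : 0 < Real.sqrt c := Real.sqrt_pos.2 hc
    have h1 := Measure.integral_comp_mul_left (fun t => Kc c 0 t • w t) (Real.sqrt c)⁻¹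
    rw [inv_inv, abs_of_pos hr] at h1
    have h2 : Iv c 0 w = (Real.sqrt c)⁻¹ • ∫ s, Kc c 0 ((Real.sqrt c)⁻¹ * s) •
        w ((Real.sqrt c)⁻¹ * s) := by
      rw [h1, smul_smul, inv_mul_cancel₀ hr.ne', one_smul]
      rfl
    rw [h2, ← integral_smul]
    congr 1
    funext s
    have h3 : (((Real.sqrt c)⁻¹ : ℝ) : ℂ) * Kc c 0 ((Real.sqrt c)⁻¹ * s) = Kc 1 0 s := by
      unfold Kc
      have e1 : -(c : ℂ) * (((((Real.sqrt c)⁻¹ * s : ℝ)) : ℂ) - 0) ^ 2 =
          -((1 : ℝ) : ℂ) * ((s : ℂ) - 0) ^ 2 := by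
        have e3 : c * ((Real.sqrt c)⁻¹ * s) ^ 2 = s ^ 2 := by
          rw [mul_pow, inv_pow, Real.sq_sqrt hc.le, ← mul_assoc, mul_inv_cancel₀ hc.ne', one_mul]
        have e4 : (c : ℂ) * ((((Real.sqrt c)⁻¹ * s : ℝ)) : ℂ) ^ 2 = (s : ℂ) ^ 2 := by
          exact_mod_cast congrArg (fun x : ℝ => (x : ℂ)) e3
        rw [sub_zero, sub_zero, neg_mul, e4, Complex.ofReal_one, neg_one_mul]
      have e2 : (((Real.sqrt c)⁻¹ : ℝ) : ℂ) * (Real.sqrt (c / Real.pi) : ℂ) =
          (Real.sqrt (1 / Real.pi) : ℂ) := by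
        rw [← Complex.ofReal_mul]
        congr 1
        rw [Real.sqrt_div hc.le, Real.sqrt_div zero_le_one, Real.sqrt_one]
        field_simp
      rw [e1, ← mul_assoc, e2]
    rw [← h3, mul_smul]
    rfl
  simp only [key]
  have hlim : ∫ s : ℝ, Kc 1 0 s • w 0 = w 0 := by
    rw [integral_smul_const]
    have : ∫ s : ℝ, Kc 1 0 s = 1 := by
      have h1 : ∀ s : ℝ, Kc 1 0 s = ((‖Kc 1 0 s‖ : ℝ) : ℂ) := by
        intro s
        rw [norm_Kc]
        unfold Kc
        push_cast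
        congr 1
        simp
      rw [integral_congr_ae (Eventually.of_forall h1)]
      have h2 : ∫ s : ℝ, ((‖Kc 1 0 s‖ : ℝ) : ℂ) = ((∫ s : ℝ, ‖Kc 1 0 s‖ : ℝ) : ℂ) :=
        integral_ofReal
      rw [h2, (Kc_integral 1 one_pos 0).2]
      simp
    rw [this, one_smul]
  rw [← hlim]
  refine tendsto_integral_of_dominated_convergence (fun s => ‖Kc 1 0 s‖ * B) ?_
    (((Kc_integral 1 one_pos 0).1).mul_const B) ?_ ?_
  · intro n
    have : Continuous (fun s : ℝ => Kc 1 0 s • w ((Real.sqrt ((n : ℝ) + 1))⁻¹ * s)) :=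
      (Kc_cont 1 0).smul (hw.comp (continuous_const.mul continuous_id))
    exact this.aestronglyMeasurable
  · intro n
    refine Eventually.of_forall fun s => ?_
    rw [norm_smul]
    exact mul_le_mul_of_nonneg_left (hB _) (norm_nonneg _)
  · refine Eventually.of_forall fun s => ?_
    apply Tendsto.const_smul
    have h1 : Tendsto (fun n : ℕ => (Real.sqrt ((n : ℝ) + 1))⁻¹ * s) atTop (𝓝 (0 * s)) := by
      apply Tendsto.mul_const
      apply Filter.Tendsto.inv_tendsto_atTop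
      apply Real.tendsto_sqrt_atTop.comp
      exact tendsto_atTop_add_const_right _ _ tendsto_natCast_atTop_atTop
    rw [zero_mul] at h1
    exact (hw.tendsto 0).comp h1

/-! ### modular part -/

variable {M : VonNeumannAlgebra H} {ξ : H} {U : ℝ → H →L[ℂ] H}

lemma U_norm (hm : IsModular M ξ U) (t : ℝ) (v : H) : ‖U t v‖ = ‖v‖ := by
  have h1 : U (-t) (U t v) = v := by
    have h2 : U (-t) * U t = 1 := by rw [← hm.add, neg_add_cancel, hm.zero]
    have := congrArg (fun T : H →L[ℂ] H => T v) h2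
    simpa using this
  have h3 : ⟪U t v, U t v⟫_ℂ = ⟪v, v⟫_ℂ := by
    have h4 : ⟪U t v, U t v⟫_ℂ = ⟪star (U t) (U t v), v⟫_ℂ := by
      rw [ContinuousLinearMap.star_eq_adjoint, ContinuousLinearMap.adjoint_inner_left]
    rw [h4, hm.star_eq, h1]
  have h5 : ‖U t v‖ ^ 2 = ‖v‖ ^ 2 := by
    have := congrArg Complex.re h3
    rw [inner_self_eq_norm_sq_to_K, inner_self_eq_norm_sq_to_K] at this
    exact_mod_cast this
  exact (pow_left_inj₀ (norm_nonneg _) (norm_nonneg _) two_ne_zero).1 h5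

lemma sgm_apply (hm : IsModular M ξ U) (t : ℝ) (a : H →L[ℂ] H) (v : H) :
    sgm U t a v = U t (a (U (-t) v)) := by
  unfold sgm
  rw [hm.star_eq]
  rfl

lemma sgm_cont (hm : IsModular M ξ U) (a : H →L[ℂ] H) (v : H) :
    Continuous (fun t => sgm U t a v) := by
  simp only [sgm_apply hm]
  have hg : Continuous (fun t : ℝ => a (U (-t) v)) :=
    a.continuous.comp ((hm.cont v).comp continuous_neg)
  rw [continuous_iff_continuousAt]
  intro t₀
  have h1 : Tendsto (fun t => U t (a (U (-t) v)) - U t (a (U (-t₀) v))) (𝓝 t₀) (𝓝 0) := by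
    rw [tendsto_zero_iff_norm_tendsto_zero]
    have h2 : ∀ t, ‖U t (a (U (-t) v)) - U t (a (U (-t₀) v))‖ =
        ‖a (U (-t) v) - a (U (-t₀) v)‖ := by
      intro t
      rw [← map_sub, U_norm hm]
    simp only [h2]
    have h3 := (hg.tendsto t₀).sub_const (a (U (-t₀) v))
    rw [sub_self] at h3
    simpa using h3.norm
  have h2 : Tendsto (fun t => U t (a (U (-t₀) v))) (𝓝 t₀) (𝓝 (U t₀ (a (U (-t₀) v)))) :=
    (hm.cont _).tendsto t₀
  have h3 := h1.add h2
  rw [zero_add] at h3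
  refine h3.congr fun t => ?_
  abel

lemma sgm_bd (hm : IsModular M ξ U) (a : H →L[ℂ] H) (v : H) (t : ℝ) :
    ‖sgm U t a v‖ ≤ ‖a‖ * ‖v‖ := by
  rw [sgm_apply hm, U_norm hm]
  refine (a.le_opNorm _).trans ?_
  rw [U_norm hm]

lemma sgm_star (_hm : IsModular M ξ U) (a : H →L[ℂ] H) (t : ℝ) :
    star (sgm U t a) = sgm U t (star a) := by
  unfold sgm
  rw [star_mul, star_mul, star_star, mul_assoc]

lemma sgm_add (hm : IsModular M ξ U) (a : H →L[ℂ] H) (s t : ℝ) (v : H) :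
    sgm U (s + t) a v = U t (sgm U s a (U (-t) v)) := by
  rw [sgm_apply hm, sgm_apply hm, add_comm s t, hm.add]
  have : U (-(t + s)) = U (-s) * U (-t) := by
    rw [← hm.add]
    congr 1
    ring
  rw [this]
  rfl

/-- the smoothed operator -/
def Fo (hm : IsModular M ξ U) (a : H →L[ℂ] H) (c : ℝ) (hc : 0 < c) (z : ℂ) : H →L[ℂ] H :=
  LinearMap.mkContinuous
    { toFun := fun v => Iv c z (fun t => sgm U t a v)
      map_add' := by
        intro v w
        unfold Iv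
        rw [← integral_add (int_Kc c hc z _ (sgm_cont hm a v) _ (sgm_bd hm a v))
          (int_Kc c hc z _ (sgm_cont hm a w) _ (sgm_bd hm a w))]
        congr 1
        funext t
        beta_reduce
        rw [map_add, smul_add]
      map_smul' := by
        intro k v
        unfold Iv
        rw [RingHom.id_apply, ← integral_smul]
        congr 1
        funext t
        beta_reduce
        rw [map_smul, smul_comm] }
    (Real.exp (c * z.im ^ 2) * ‖a‖) (fun v => by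
      refine (norm_Iv c hc z _ _ (sgm_bd hm a v)).trans ?_
      rw [mul_assoc])

lemma Fo_apply (hm : IsModular M ξ U) (a : H →L[ℂ] H) (c : ℝ) (hc : 0 < c) (z : ℂ) (v : H) :
    Fo hm a c hc z v = Iv c z (fun t => sgm U t a v) := rfl

lemma Fo_norm (hm : IsModular M ξ U) (a : H →L[ℂ] H) (c : ℝ) (hc : 0 < c) (z : ℂ) :
    ‖Fo hm a c hc z‖ ≤ Real.exp (c * z.im ^ 2) * ‖a‖ :=
  LinearMap.mkContinuous_norm_le _ (by positivity) _

lemma Fo_star (hm : IsModular M ξ U) (a : H →L[ℂ] H) (c : ℝ) (hc : 0 < c) (z : ℂ) :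
    star (Fo hm a c hc (starRingEnd ℂ z)) = Fo hm (star a) c hc z := by
  symm
  rw [ContinuousLinearMap.star_eq_adjoint (Fo hm a c hc (starRingEnd ℂ z)),
    ContinuousLinearMap.eq_adjoint_iff]
  intro v w
  rw [Fo_apply, Fo_apply]
  unfold Iv
  rw [← integral_inner (int_Kc c hc _ _ (sgm_cont hm a w) _ (sgm_bd hm a w)) v]
  rw [← inner_conj_symm, ← integral_inner (int_Kc c hc z _ (sgm_cont hm (star a) v) _
    (sgm_bd hm (star a) v)) w, ← integral_conj]
  congr 1
  funext t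
  rw [inner_conj_symm, inner_smul_left, inner_smul_right]
  have h1 : (starRingEnd ℂ) (Kc c z t) = Kc c ((starRingEnd ℂ) z) t := by
    have := conj_Kc c ((starRingEnd ℂ) z) t
    rwa [Complex.conj_conj] at this
  rw [h1, ← sgm_star hm, ContinuousLinearMap.star_eq_adjoint,
    ContinuousLinearMap.adjoint_inner_left]

lemma Fo_mem (hm : IsModular M ξ U) (a : H →L[ℂ] H) (ha : a ∈ M) (c : ℝ) (hc : 0 < c) (z : ℂ) :
    Fo hm a c hc z ∈ M := by
  have h0 : Fo hm a c hc z ∈ M.commutant.commutant := by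
    rw [VonNeumannAlgebra.mem_commutant_iff]
    intro y hy
    ext v
    change y (Fo hm a c hc z v) = Fo hm a c hc z (y v)
    rw [Fo_apply, Fo_apply]
    unfold Iv
    rw [← ContinuousLinearMap.integral_comp_comm y
      (int_Kc c hc z _ (sgm_cont hm a v) _ (sgm_bd hm a v))]
    congr 1
    funext t
    rw [map_smul]
    congr 1
    have h1 := (VonNeumannAlgebra.mem_commutant_iff.1 hy) (sgm U t a) (hm.mem t a ha)
    have h2 := congrArg (fun T : H →L[ℂ] H => T v) h1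
    exact h2.symm
  rwa [VonNeumannAlgebra.commutant_commutant] at h0

lemma Fo_an (hm : IsModular M ξ U) (a : H →L[ℂ] H) (ha : a ∈ M) (c : ℝ) (hc : 0 < c) :
    IsAn M U (Fo hm a c hc) where
  mem z := Fo_mem hm a ha c hc z
  diff v := by
    simp only [Fo_apply]
    exact diff_Iv c hc _ (sgm_cont hm a v) _ (sgm_bd hm a v)
  diff' v := by
    simp only [Fo_star, Fo_apply]
    exact diff_Iv c hc _ (sgm_cont hm (star a) v) _ (sgm_bd hm (star a) v)
  ext t := by
    ext v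
    rw [sgm_apply hm, Fo_apply, Fo_apply]
    unfold Iv
    rw [← integral_add_right_eq_self _ t]
    rw [← ContinuousLinearMap.integral_comp_comm (U t)
      (int_Kc c hc 0 _ (sgm_cont hm a (U (-t) v)) _ (sgm_bd hm a (U (-t) v)))]
    congr 1
    funext s
    beta_reduce
    rw [map_smul, Kc_add, sgm_add hm]
  bdd R := by
    refine ⟨Real.exp (c * R ^ 2) * ‖a‖, fun z hz => (Fo_norm hm a c hc z).trans ?_⟩
    apply mul_le_mul_of_nonneg_right _ (norm_nonneg _)
    apply Real.exp_le_exp.2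
    apply mul_le_mul_of_nonneg_left _ hc.le
    rw [← sq_abs z.im]
    exact pow_le_pow_left₀ (abs_nonneg _) hz 2

theorem a8a : S_A8a := by
  intro H _ _ _ M ξ U hm a ha
  refine ⟨fun n => Fo hm a ((n : ℝ) + 1) (by positivity), fun n => Fo_an hm a ha _ _, fun v => ?_⟩
  simp only [Fo_apply]
  have h1 := tendsto_Iv _ (sgm_cont hm a v) _ (sgm_bd hm a v)
  have h2 : sgm U 0 a v = a v := by
    rw [sgm_apply hm, neg_zero, hm.zero]
    rfl
  rw [h2] at h1
  exact h1

end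

end Pool.Agent.W883.CB
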